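import Pool.Agent.MP_cce4c9_lc.H68.MabB
import Pool.Agent.MP_cce4c9_lc.H7.Base

/-! Models for the decomposable commutator forms. -/

set_option autoImplicit false

open WithZero Finsupp Module Polynomial

namespace Pool.Agent.MP_cce4c9_lc.H68

open Pool.Agent.MP_cce4c9_lc.H87 Pool.Agent.MP_cce4c9_lc.H7

section

variable {k K M : Type} [Field k] [IsAlgClosed k] [Field K] [Algebra k K] [Field M] [Algebra k M]
  [Algebra K M] [IsScalarTower k K M] [FiniteDimensional K M] [IsGalois K M] {l : ℕ}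
  [hp : Fact l.Prime] {ζ : k} {e : VV k K l →ₗ[ZMod l] VV k K l →ₗ[ZMod l] ZMod l}
  {τ : M ≃ₐ[K] M} {α : M} {f g : Kˣ} {D E : Dv k K} {a b : VV k K l}

/-- The construction on the cyclic cover. -/
theorem cyc_model (hWR : StmtWR) (hTSEN : StmtTSEN) (hWP : StmtWP) (hK : IsFF k K)
    (hζ : IsPrimitiveRoot ζ l) (he : IsWP ζ e) (hf : Rep f D a) (hg : Rep g E b)
    (hgen : Algebra.adjoin K {α} = ⊤) (hα : α ^ l = algebraMap K M f)
    (hτ : τ α = algebraMap k M ζ * α) (C : Cyc k l τ) :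
    ∃ (z : M) (B : Dv k K), z ≠ 0 ∧ ZZ τ z l = algebraMap K M g ∧
      (∀ y : Place k M, ((y.ord (HH τ z l) : ℤ) : ZMod l) = B (C.dn y)) ∧
      (B.degree : ZMod l) = -e a b := by
  classical
  have hl := hp.out.ne_zero
  have : NeZero l := ⟨hl⟩
  have hM : IsFF k M := hK.of_finite M
  have h0 : α ≠ 0 := by
    rintro rfl
    rw [zero_pow hl] at hα
    exact f.ne_zero ((map_eq_zero _).1 hα.symm)
  have hζ0 : ζ ≠ 0 := hζ.ne_zero hl
  obtain ⟨z, hz⟩ := hTSEN k K M hK g
  have hz0 : z ≠ 0 := by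
    rintro rfl
    rw [Algebra.norm_zero] at hz
    exact g.ne_zero hz.symm
  have hZ : ZZ τ z l = algebraMap K M g := by rw [norm_ZZ hζ hgen h0 hα hτ, hz]
  have hτl : τ ^ l = 1 := aut_order hζ hgen hτ
  have hsi : Function.Injective C.sec := Function.LeftInverse.injective C.dn_sec
  have hBf : (Function.support fun x : Place k K => (C.sec x).ord (HH τ z l)).Finite :=
    (fins hM (HH τ z l)).preimage hsi.injOn
  obtain ⟨f', D', hf', hS⟩ := (hWP k K l hK).1 a (E.support ∪ (dv k z).support.image C.dn)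
  obtain ⟨u, hu, -⟩ := hf'.of_eq hK hf
  refine ⟨z, Finsupp.ofSupportFinite _ hBf, hz0, hZ, fun y => ?_, ?_⟩
  · obtain ⟨i, -, hy⟩ := C.surj y
    have h1 := congrArg (C.sec (C.dn y)).ord (HH_pow hτl hZ i)
    have hg0 : algebraMap K M g ≠ 0 := (_root_.map_ne_zero _).2 g.ne_zero
    rw [Place.ord_mul _ (Place.val_ne _ ((_root_.map_ne_zero _).2 (HH_ne hz0 l)))
        (Place.val_ne _ (pow_ne_zero _ hg0)),
      Place.ord_mul _ (Place.val_ne _ (HH_ne hz0 l))
        (Place.val_ne _ (pow_ne_zero _ (ZZ_ne hz0 i))),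
      Place.ord_pow, Place.ord_pow, over_ord (C.over_sec _), hg.ord hK, ← pb_ord, ← hy] at h1
    have h2 := congrArg (Int.cast : ℤ → ZMod l) h1
    push_cast at h2
    rw [ZMod.natCast_self, zero_mul, zero_mul, mul_zero, add_zero, add_zero] at h2
    exact h2
  · have hu0 : algebraMap K M u ≠ 0 := (_root_.map_ne_zero _).2 u.ne_zero
    have hα' : (α * algebraMap K M u) ^ l = algebraMap K M f' := by
      rw [mul_pow, hα, ← map_pow, ← map_mul, hu]; simp
    have hτ' : τ (α * algebraMap K M u) = algebraMap k M ζ * (α * algebraMap K M u) := by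
      rw [map_mul, hτ, τ.commutes, mul_assoc]
    have hoff : ∀ y : Place k M, y.ord z ≠ 0 → (C.dn y).val (f' : K) = 1 := fun y hy =>
      hS _ (Finset.mem_union_right _ (Finset.mem_image_of_mem _
        (Finsupp.mem_support_iff.2 (by rwa [dv_ap hM]))))
    have h1 := C.recip hl (res hM) (fins hM) hζ0 (B := Finsupp.ofSupportFinite _ hBf)
      f'.ne_zero hz0 (hf'.ord hK) (hg.ord hK) hα' hτ' hZ hoff (fun x => rfl)
      (hWR k M hM _ _ (mul_ne_zero h0 hu0) hz0)
    have hfE : Off (f' : K) E := fun v hv =>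
      hS v (Finset.mem_union_left _ (Finsupp.mem_support_iff.2 hv))
    have hgD : Off (g : K) D' := fun v hv => by
      rw [v.val_one_iff (v.val_ne g.ne_zero), hg.ord hK]
      by_contra h2
      have h3 := v.ord_of_val_one (hfE v (right_ne_zero_of_mul h2))
      rw [hf'.ord hK] at h3
      exact hv ((mul_eq_zero.1 h3).resolve_left (by exact_mod_cast hl))
    rw [he.2 f' g D' E a b hf' hg hfE hgD, ← mul_assoc, ← zpow_natCast, ← zpow_add₀ hζ0,
      mul_eq_right₀ (evD_ne hK hgD), hζ.zpow_eq_one_iff_dvd,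
      ← ZMod.intCast_zmod_eq_zero_iff_dvd] at h1
    push_cast at h1
    rw [ZMod.natCast_zmod_val] at h1
    exact eq_neg_of_add_eq_zero_left h1

variable {L : Type} [Field L] [Algebra k L] [Algebra K L] [IsScalarTower k K L]
  [FiniteDimensional K L] [Algebra M L] [IsScalarTower K M L] [IsScalarTower k M L]

/-- Transfer from the cyclic cover to the given cover. -/
theorem mab_cyc (hEXT : StmtEXT) (hGAL : StmtGAL) (hWR : StmtWR) (hTSEN : StmtTSEN)
    (hWP : StmtWP) (hK : IsFF k K) (hζ : IsPrimitiveRoot ζ l) (he : IsWP ζ e) (hf : Rep f D a)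
    (hg : Rep g E b) (hgen : Algebra.adjoin K {α} = ⊤) (hα : α ^ l = algebraMap K M f)
    (hτ : τ α = algebraMap k M ζ * α) {dn : Place k L → Place k K} (hdn : ∀ y, Over y (dn y) 1)
    {β : L} {χa χb : (L ≃ₐ[K] L) → ZMod l} (hβ : β ^ l = algebraMap K L g)
    (hχa : ∀ γ : L ≃ₐ[K] L,
      γ (algebraMap M L α) = algebraMap k L (ζ ^ (χa γ).val) * algebraMap M L α)
    (hχb : ∀ γ : L ≃ₐ[K] L, γ β = algebraMap k L (ζ ^ (χb γ).val) * β) :
    ∃ (H : L) (w : (L ≃ₐ[K] L) → L) (B : Dv k K),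
      Dat ζ dn H w (fun γ δ => χa γ * χb δ - χa δ * χb γ) (fun x => (B x : ZMod l)) ∧
        (B.degree : ZMod l) = -e a b := by
  have hl := hp.out.ne_zero
  have : NeZero l := ⟨hl⟩
  have hM : IsFF k M := hK.of_finite M
  have : FiniteDimensional M L := Module.Finite.of_restrictScalars_finite K M L
  obtain ⟨C⟩ := exists_cyc hEXT hGAL hK hζ hgen f.ne_zero hα hτ (hf.dvd hK)
  obtain ⟨z, B, hz0, hZ, hB, hdeg⟩ := cyc_model hWR hTSEN hWP hK hζ he hf hg hgen hα hτ C
  have hτl : τ ^ l = 1 := aut_order hζ hgen hτ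
  have hγ : ∀ (γ : L ≃ₐ[K] L) (m : M),
      γ (algebraMap M L m) = algebraMap M L ((τ ^ (χa γ).val) m) := fun γ m => by
    have := AlgHom.ext_of_adjoin_eq_top hgen
      (φ₁ := (γ : L →ₐ[K] L).comp (IsScalarTower.toAlgHom K M L))
      (φ₂ := (IsScalarTower.toAlgHom K M L).comp (τ ^ (χa γ).val : M ≃ₐ[K] M)) (by
        rintro _ rfl
        show γ (algebraMap M L _) = algebraMap M L ((τ ^ (χa γ).val) _)
        rw [hχa, aut_pow_root hτ, map_mul, ← IsScalarTower.algebraMap_apply])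
    exact DFunLike.congr_fun this m
  have hg0 : algebraMap K L g ≠ 0 := (_root_.map_ne_zero _).2 g.ne_zero
  have hβ0 : β ≠ 0 := by
    rintro rfl
    rw [zero_pow hl] at hβ
    exact hg0 hβ.symm
  have hζ0 : ∀ n : ℕ, algebraMap k L (ζ ^ n) ≠ 0 := fun n =>
    (_root_.map_ne_zero _).2 (pow_ne_zero _ (hζ.ne_zero hl))
  refine ⟨algebraMap M L (HH τ z l), fun γ => algebraMap M L (ZZ τ z (χa γ).val) / β ^ (χa γ).val,
    B, ⟨(_root_.map_ne_zero _).2 (HH_ne hz0 l), fun γ => ?_, fun γ δ => ?_, fun y => ?_⟩, hdeg⟩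
  · have h1 := congrArg (algebraMap M L) (HH_pow hτl hZ (χa γ).val)
    rw [map_mul, map_mul, map_pow, map_pow, ← IsScalarTower.algebraMap_apply, ← hγ] at h1
    rw [div_pow, ← pow_mul, mul_comm _ l, pow_mul, hβ, ← mul_div_assoc, ← h1,
      mul_div_cancel_right₀ _ (pow_ne_zero _ hg0)]
  · have key : ∀ γ δ : L ≃ₐ[K] L,
        algebraMap M L (ZZ τ z (χa γ).val) / β ^ (χa γ).val *
          γ (algebraMap M L (ZZ τ z (χa δ).val) / β ^ (χa δ).val) *
          algebraMap k L (ζ ^ ((χb γ).val * (χa δ).val)) =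
        algebraMap M L (ZZ τ z ((χa γ).val + (χa δ).val)) / β ^ ((χa γ).val + (χa δ).val) :=
      fun γ δ => by
      have h2 := hζ0 (χb γ).val
      rw [map_div₀, hγ, map_pow γ, hχb, ZZ_add, map_mul, pow_mul, map_pow _ (ζ ^ _), mul_pow,
        pow_add]
      field_simp
    have h3 : ζ ^ (χa γ * χb δ - χa δ * χb γ).val * ζ ^ ((χb γ).val * (χa δ).val) =
        ζ ^ ((χb δ).val * (χa γ).val) := by
      rw [← pow_add]
      refine zeta_congr hζ.pow_eq_one ?_
      push_cast
      simp only [ZMod.natCast_zmod_val]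
      ring
    refine mul_right_cancel₀ (hζ0 ((χb γ).val * (χa δ).val)) ?_
    rw [key, add_comm, ← key δ γ, ← h3, map_mul]
    ring
  · obtain ⟨dn', e', hov, -⟩ := hEXT k M L hM
    have h1 : Over y (C.dn (dn' y)) (e' y) := ⟨(hov y).1, fun h => by
      rw [IsScalarTower.algebraMap_apply K M L, (hov y).2, over_val (C.ovr _)]⟩
    obtain ⟨h2, h3⟩ := over_uniq h1 (hdn y)
    have h4 := hov y
    rw [h3] at h4
    show _ = ((B (dn y) : ℤ) : ZMod l)
    rw [over_ord h4, hB, h2]

end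

theorem mab (_hDEG : StmtDEG) (hEXT : StmtEXT) (hGAL : StmtGAL) (hWR : StmtWR)
    (hTSEN : StmtTSEN) (hWP : StmtWP) : StmtMAB := by
  intro k K L _ _ _ _ _ _ _ _ _ _ l hp ζ e dn hK hζ he hdn f g D E a b α β χa χb hf hg hα hβ hχa
    hχb
  have hl := hp.out.ne_zero
  have : NeZero l := ⟨hl⟩
  by_cases hy : ∃ y : K, y ^ l = f
  · obtain ⟨y, hy⟩ := hy
    have hy0 : y ≠ 0 := by
      rintro rfl
      rw [zero_pow hl] at hy
      exact f.ne_zero hy.symm
    have ha : a = 0 := hf.eq_zero.2 ⟨Units.mk0 y hy0, Units.ext (by simpa using hy)⟩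
    have hy' : algebraMap K L y ≠ 0 := (_root_.map_ne_zero _).2 hy0
    have h1 : (α / algebraMap K L y) ^ l = 1 := by
      rw [div_pow, hα, ← map_pow, hy, div_self ((_root_.map_ne_zero _).2 f.ne_zero)]
    obtain ⟨i, -, hi⟩ :=
      (hζ.map_of_injective (algebraMap k L).injective).eq_pow_of_pow_eq_one h1
    have h2 : α = algebraMap k L (ζ ^ i) * algebraMap K L y := by
      rw [map_pow, hi, div_mul_cancel₀ _ hy']
    have hα0 : α ≠ 0 := by
      rintro rfl
      rw [zero_pow hl] at hα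
      exact f.ne_zero ((map_eq_zero _).1 hα.symm)
    have h3 : ∀ γ, χa γ = 0 := fun γ => by
      have h4 : γ α = α := by rw [h2, map_mul, aut_const, γ.commutes]
      rw [hχa, mul_eq_right₀ hα0, map_eq_one_iff _ (algebraMap k L).injective,
        hζ.pow_eq_one_iff_dvd, ← ZMod.natCast_eq_zero_iff, ZMod.natCast_zmod_val] at h4
      exact h4
    refine ⟨1, fun _ => 1, 0, ⟨one_ne_zero, fun γ => by simp, fun γ δ => by simp [h3],
      fun y => by simp⟩, by simp [ha]⟩
  · have H : Irreducible (X ^ l - C (f : K)) :=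
      X_pow_sub_C_irreducible_of_prime hp.out fun y h => hy ⟨y, h⟩
    have hζK : IsPrimitiveRoot (algebraMap k K ζ) l := hζ.map_of_injective (algebraMap k K).injective
    have hpr : (primitiveRoots l K).Nonempty := ⟨_, (mem_primitiveRoots hp.out.pos).2 hζK⟩
    have := Fact.mk H
    have := isSplittingField_AdjoinRoot_X_pow_sub_C hpr H
    have := IsSplittingField.finiteDimensional (AdjoinRoot (X ^ l - C (f : K))) (X ^ l - C (f : K))
    have := isGalois_of_isSplittingField_X_pow_sub_C hpr H (AdjoinRoot (X ^ l - C (f : K)))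
    have hr : AdjoinRoot.root (X ^ l - C (f : K)) ^ l = algebraMap K _ (f : K) :=
      root_X_pow_sub_C_pow l (f : K)
    let ι : AdjoinRoot (X ^ l - C (f : K)) →ₐ[K] L :=
      AdjoinRoot.liftAlgHom (X ^ l - C (f : K)) (Algebra.ofId _ _) α (by simp [hα])
    have hι : ι (AdjoinRoot.root _) = α := AdjoinRoot.liftAlgHom_root _ _ _ _
    let _ : Algebra (AdjoinRoot (X ^ l - C (f : K))) L := ι.toRingHom.toAlgebra
    have : IsScalarTower K (AdjoinRoot (X ^ l - C (f : K))) L :=
      IsScalarTower.of_algebraMap_eq fun x => (ι.commutes x).symm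
    have : IsScalarTower k (AdjoinRoot (X ^ l - C (f : K))) L :=
      IsScalarTower.of_algebraMap_eq fun x => by
        rw [IsScalarTower.algebraMap_apply k K L,
          IsScalarTower.algebraMap_apply k K (AdjoinRoot (X ^ l - C (f : K)))]
        exact (ι.commutes _).symm
    have hτ := autEquivZmod_symm_apply_natCast H (AdjoinRoot (X ^ l - C (f : K))) hr hζK 1
    rw [pow_one, Algebra.smul_def, ← IsScalarTower.algebraMap_apply] at hτ
    refine mab_cyc hEXT hGAL hWR hTSEN hWP hK hζ he hf hg AdjoinRoot.adjoinRoot_eq_top hr hτ hdn hβ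
      (fun γ => ?_) hχb
    show γ (ι _) = _ * ι _
    rw [hι, hχa]

end Pool.Agent.MP_cce4c9_lc.H68
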