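import Pool.Agent.MP_cce4c9_lc.H7.Spec

/-! Pull back of places along automorphisms, and reciprocity on a cyclic unramified cover. -/

set_option autoImplicit false

open WithZero Finsupp Module

namespace Pool.Agent.MP_cce4c9_lc.H68

open Pool.Agent.MP_cce4c9_lc.H87 Pool.Agent.MP_cce4c9_lc.H7

section Gen

variable {k F F' : Type} [Field k] [Field F] [Algebra k F] [Field F'] [Algebra k F']

theorem ev_congr {v : Place k F} {w : Place k F'} {h : F} {h' : F'}
    (H : ∀ c : k, v.val (h - algebraMap k F c) < 1 ↔ w.val (h' - algebraMap k F' c) < 1) :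
    v.ev h = w.ev h' := by
  by_cases hc : ∃ c : k, v.val (h - algebraMap k F c) < 1
  · obtain ⟨c, hc⟩ := hc
    rw [v.ev_eq hc, w.ev_eq ((H c).1 hc)]
  · have hc' : ¬ ∃ c : k, w.val (h' - algebraMap k F' c) < 1 := fun ⟨c, h1⟩ => hc ⟨c, (H c).2 h1⟩
    rw [Place.ev, Place.ev, dif_neg hc, dif_neg hc']

theorem ord_prod {ι : Type} (v : Place k F) (s : Finset ι) (h : ι → F) (h0 : ∀ i ∈ s, h i ≠ 0) :
    v.ord (∏ i ∈ s, h i) = ∑ i ∈ s, v.ord (h i) := by
  classical
  induction s using Finset.induction_on with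
  | empty => simp
  | insert a s ha ih =>
    have h1 : ∀ i ∈ s, h i ≠ 0 := fun i hi => h0 i (Finset.mem_insert_of_mem hi)
    rw [Finset.prod_insert ha, Finset.sum_insert ha, v.ord_mul
      (v.val_ne (h0 a (Finset.mem_insert_self a s))) (v.val_ne (Finset.prod_ne_zero_iff.2 h1)),
      ih h1]

theorem ev_prod' {ι : Type} {v : Place k F} (H : v.Res) (s : Finset ι) (h : ι → F)
    (h0 : ∀ i ∈ s, v.val (h i) ≤ 1) :
    v.val (∏ i ∈ s, h i) ≤ 1 ∧ v.ev (∏ i ∈ s, h i) = ∏ i ∈ s, v.ev (h i) := by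
  classical
  induction s using Finset.induction_on with
  | empty => simp
  | insert a s ha ih =>
    have h1 := ih fun i hi => h0 i (Finset.mem_insert_of_mem hi)
    have h2 := h0 a (Finset.mem_insert_self a s)
    rw [Finset.prod_insert ha, Finset.prod_insert ha, H.ev_mul h2 h1.1, h1.2, map_mul]
    exact ⟨mul_le_one' h2 h1.1, rfl⟩

theorem val_one_of_pow (v : Place k F) {a : F} {l : ℕ} (hl : l ≠ 0) (h : v.val (a ^ l) = 1) :
    v.val a = 1 := by
  have h0 : a ≠ 0 := by
    rintro rfl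
    rw [zero_pow hl, map_zero] at h
    exact zero_ne_one h
  have h1 := v.ord_of_val_one h
  rw [v.ord_pow] at h1
  rw [v.val_one_iff (v.val_ne h0)]
  rcases mul_eq_zero.1 h1 with h2 | h2
  · exact absurd (by exact_mod_cast h2) hl
  · exact h2

theorem prod_zpow_sum {ι : Type} {c : k} (hc : c ≠ 0) (s : Finset ι) (n : ι → ℤ) :
    ∏ i ∈ s, c ^ n i = c ^ ∑ i ∈ s, n i := by
  classical
  induction s using Finset.induction_on with
  | empty => simp
  | insert a s ha ih => rw [Finset.prod_insert ha, Finset.sum_insert ha, ih, zpow_add₀ hc]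

end Gen

section Pull

variable {k K M : Type} [Field k] [Field K] [Algebra k K] [Field M] [Algebra k M] [Algebra K M]
  [IsScalarTower k K M]

/-- Pull back of a place along an automorphism. -/
noncomputable def pb (γ : M ≃ₐ[K] M) (y : Place k M) : Place k M := (SA.ofAlg (k := k) γ)⁻¹ • y

theorem pb_val (γ : M ≃ₐ[K] M) (y : Place k M) (h : M) : (pb γ y).val h = y.val (γ h) := rfl

theorem pb_ord (γ : M ≃ₐ[K] M) (y : Place k M) (h : M) : (pb γ y).ord h = y.ord (γ h) := rfl

theorem aut_const (γ : M ≃ₐ[K] M) (c : k) : γ (algebraMap k M c) = algebraMap k M c := by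
  rw [IsScalarTower.algebraMap_apply k K M, γ.commutes]

theorem pb_ev (γ : M ≃ₐ[K] M) (y : Place k M) (h : M) : (pb γ y).ev h = y.ev (γ h) :=
  ev_congr fun c => by rw [pb_val, map_sub, aut_const]

theorem pb_over (γ : M ≃ₐ[K] M) {y : Place k M} {x : Place k K} {e : ℕ} (h : Over y x e) :
    Over (pb γ y) x e := ⟨h.1, fun a => by rw [pb_val, γ.commutes, h.2]⟩

theorem smul_eq_pb (γ : M ≃ₐ[K] M) (y : Place k M) : SA.ofAlg (k := k) γ • y = pb γ⁻¹ y := by
  ext h; rfl

theorem pb_pb (γ δ : M ≃ₐ[K] M) (y : Place k M) : pb γ (pb δ y) = pb (δ * γ) y := by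
  ext h; rfl

theorem pb_one (y : Place k M) : pb (1 : M ≃ₐ[K] M) y = y := by
  ext h; rfl

omit [IsScalarTower k K M] in
theorem over_uniq {y : Place k M} {x x' : Place k K} {e e' : ℕ} (h : Over y x e)
    (h' : Over y x' e') : x = x' ∧ e = e' := by
  have hx : x = x' := Place.eq_of_le x x' fun a ha => by
    have h1 : x'.val a ^ e' ≤ 1 := by rw [← h'.2, h.2]; exact pow_le_one' ha e
    exact (pow_le_one_iff h'.1.ne').1 h1
  subst hx
  refine ⟨rfl, ?_⟩
  obtain ⟨π, hπ⟩ := x.exists_unif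
  have h1 := (h.2 π).symm.trans (h'.2 π)
  rw [hπ, ← exp_nsmul, ← exp_nsmul, exp_inj] at h1
  simpa using h1

omit [IsScalarTower k K M] in
theorem over_val {y : Place k M} {x : Place k K} (h : Over y x 1) (a : K) :
    y.val (algebraMap K M a) = x.val a := by rw [h.2, pow_one]

omit [IsScalarTower k K M] in
theorem over_ord {y : Place k M} {x : Place k K} (h : Over y x 1) (a : K) :
    y.ord (algebraMap K M a) = x.ord a := by rw [Place.ord, over_val h, Place.ord]

theorem over_ev {y : Place k M} {x : Place k K} (h : Over y x 1) (a : K) :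
    y.ev (algebraMap K M a) = x.ev a :=
  ev_congr fun c => by rw [IsScalarTower.algebraMap_apply k K M, ← map_sub, over_val h]

/-- An unramified cyclic cover with a section of the places. -/
structure Cyc (k : Type) [Field k] [Algebra k K] [Algebra k M] [IsScalarTower k K M] (l : ℕ)
    (τ : M ≃ₐ[K] M) where
  /-- the place below -/
  dn : Place k M → Place k K
  /-- a place above -/
  sec : Place k K → Place k M
  ovr : ∀ y, Over y (dn y) 1
  dn_sec : ∀ x, dn (sec x) = x
  surj : ∀ y, ∃ i < l, y = pb (τ ^ i) (sec (dn y))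
  inj : ∀ x i j, i < l → j < l → pb (τ ^ i) (sec x) = pb (τ ^ j) (sec x) → i = j

variable {l : ℕ} {τ : M ≃ₐ[K] M}

theorem Cyc.over_sec (C : Cyc k l τ) (x : Place k K) : Over (C.sec x) x 1 := by
  have := C.ovr (C.sec x)
  rwa [C.dn_sec] at this

theorem Cyc.dn_pb (C : Cyc k l τ) (γ : M ≃ₐ[K] M) (x : Place k K) :
    C.dn (pb γ (C.sec x)) = x := (over_uniq (C.ovr _) (pb_over γ (C.over_sec x))).1

theorem Cyc.evD_eq (C : Cyc k l τ) (h : M) (A : Dv k M) (T : Finset (Place k K))
    (hT : ∀ y, A y ≠ 0 → C.dn y ∈ T) :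
    evD h A = ∏ x ∈ T, ∏ i ∈ Finset.range l,
      (C.sec x).ev ((τ ^ i) h) ^ A (pb (τ ^ i) (C.sec x)) := by
  classical
  have hs : A.support ⊆ (T ×ˢ Finset.range l).image fun p => pb (τ ^ p.2) (C.sec p.1) := by
    intro y hy
    obtain ⟨i, hi, e⟩ := C.surj y
    exact Finset.mem_image.2 ⟨(C.dn y, i), Finset.mem_product.2
      ⟨hT y (Finsupp.mem_support_iff.1 hy), Finset.mem_range.2 hi⟩, e.symm⟩
  rw [evD, Finsupp.prod_of_support_subset A hs _ (fun _ _ => zpow_zero _), Finset.prod_image,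
    Finset.prod_product]
  · simp only [pb_ev]
  · rintro ⟨x, i⟩ hx ⟨x', j⟩ hx' e
    have e' : pb (τ ^ i) (C.sec x) = pb (τ ^ j) (C.sec x') := e
    have h1 : x = x' := by rw [← C.dn_pb (τ ^ i) x, e', C.dn_pb]
    subst h1
    have hi := Finset.mem_range.1 (Finset.mem_product.1 (Finset.mem_coe.1 hx)).2
    have hj := Finset.mem_range.1 (Finset.mem_product.1 (Finset.mem_coe.1 hx')).2
    rw [C.inj x i j hi hj e']

theorem aut_pow_root {ζ : k} {α : M} (hτ : τ α = algebraMap k M ζ * α) (i : ℕ) :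
    (τ ^ i) α = algebraMap k M (ζ ^ i) * α := by
  induction i with
  | zero => simp
  | succ i ih =>
    rw [pow_succ', AlgEquiv.mul_apply, ih, map_mul, aut_const, hτ, pow_succ, map_mul, mul_assoc]

/-- Reciprocity on the cover, read on the base. -/
theorem Cyc.recip (C : Cyc k l τ) (hl : l ≠ 0) (hres : ∀ v : Place k M, v.Res)
    (hfM : ∀ h : M, (Function.support fun v : Place k M => v.ord h).Finite)
    {ζ : k} (hζ : ζ ≠ 0) {α z : M} {f g : K} {D E B : Dv k K} (hf0 : f ≠ 0) (hz0 : z ≠ 0)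
    (hf : ∀ x : Place k K, x.ord f = l * D x) (hg : ∀ x : Place k K, x.ord g = l * E x)
    (hα : α ^ l = algebraMap K M f) (hτ : τ α = algebraMap k M ζ * α)
    (hz : ∏ i ∈ Finset.range l, (τ ^ i) z = algebraMap K M g)
    (hoff : ∀ y : Place k M, y.ord z ≠ 0 → (C.dn y).val f = 1)
    (hB : ∀ x, B x = (C.sec x).ord (∏ i ∈ Finset.range l, (τ ^ i) z ^ i))
    (hWR : Off α (dv k z) → evD α (dv k z) = evD z (dv k α)) :
    ζ ^ B.degree * evD f E = evD g D := by
  classical
  have hl' : (l : ℤ) ≠ 0 := by exact_mod_cast hl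
  have hτz : ∀ i : ℕ, (τ ^ i) z ≠ 0 := fun i => (map_ne_zero (τ ^ i)).2 hz0
  have hva : ∀ y : Place k M, (C.dn y).val f = 1 → y.val α = 1 := fun y hy =>
    val_one_of_pow y hl (by rw [hα, over_val (C.ovr y), hy])
  have hoa : ∀ y : Place k M, y.ord α = D (C.dn y) := fun y => by
    have h1 := over_ord (C.ovr y) f
    rw [← hα, y.ord_pow, hf] at h1
    exact mul_left_cancel₀ hl' h1
  have hsum : ∀ x, ∑ i ∈ Finset.range l, (C.sec x).ord ((τ ^ i) z) = l * E x := fun x => by
    rw [← ord_prod _ _ _ fun i _ => hτz i, hz, over_ord (C.over_sec x), hg]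
  have hsumB : ∀ x, B x = ∑ i ∈ Finset.range l, (i : ℤ) * (C.sec x).ord ((τ ^ i) z) := fun x => by
    rw [hB, ord_prod _ _ _ fun i _ => pow_ne_zero _ (hτz i)]
    exact Finset.sum_congr rfl fun i _ => Place.ord_pow _ _ _
  have hW := hWR fun y hy => hva y (hoff y (by rwa [dv_apply (hfM z)] at hy))
  set T : Finset (Place k K) := (dv k z).support.image C.dn with hTdef
  have hT : ∀ y, dv k z y ≠ 0 → C.dn y ∈ T := fun y hy =>
    Finset.mem_image_of_mem _ (Finsupp.mem_support_iff.2 hy)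
  have hTf : ∀ x ∈ T, x.val f = 1 := fun x hx => by
    obtain ⟨y, hy, rfl⟩ := Finset.mem_image.1 hx
    exact hoff y (by rw [← dv_apply (hfM z)]; exact Finsupp.mem_support_iff.1 hy)
  have hTn : ∀ x, x ∉ T → ∀ i, (C.sec x).ord ((τ ^ i) z) = 0 := fun x hx i => by
    by_contra h0
    apply hx
    have := hT (pb (τ ^ i) (C.sec x)) (by rwa [dv_apply (hfM z), pb_ord])
    rwa [C.dn_pb] at this
  have hL : evD α (dv k z) = ζ ^ B.degree * evD f E := by
    have hBs : B.support ⊆ T := fun x hx => by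
      by_contra h0
      apply Finsupp.mem_support_iff.1 hx
      rw [hsumB]
      exact Finset.sum_eq_zero fun i _ => by rw [hTn x h0 i, mul_zero]
    have hEs : E.support ⊆ T := fun x hx => by
      by_contra h0
      apply Finsupp.mem_support_iff.1 hx
      have h1 := hsum x
      rw [Finset.sum_eq_zero fun i _ => hTn x h0 i] at h1
      exact (mul_eq_zero.1 h1.symm).resolve_left hl'
    have hdeg : B.degree = ∑ x ∈ T, B x := by
      rw [Finsupp.degree_apply]
      exact Finset.sum_subset hBs fun x _ hx => Finsupp.notMem_support_iff.1 hx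
    rw [C.evD_eq α _ T hT, hdeg, ← prod_zpow_sum hζ, evD,
      Finsupp.prod_of_support_subset E hEs _ (fun _ _ => zpow_zero _), ← Finset.prod_mul_distrib]
    refine Finset.prod_congr rfl fun x hx => ?_
    have h1 : (C.sec x).val α = 1 := hva _ (by rw [C.dn_sec]; exact hTf x hx)
    have h2 : (C.sec x).ev α ≠ 0 := (hres _).ev_ne_zero h1
    have h3 : (C.sec x).ev α ^ l = x.ev f := by
      rw [← (hres _).ev_pow h1.le, hα, over_ev (C.over_sec x)]
    have h4 : ∀ i ∈ Finset.range l,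
        (C.sec x).ev ((τ ^ i) α) ^ dv k z (pb (τ ^ i) (C.sec x)) =
          ζ ^ ((i : ℤ) * (C.sec x).ord ((τ ^ i) z)) *
            (C.sec x).ev α ^ (C.sec x).ord ((τ ^ i) z) := fun i _ => by
      rw [dv_apply (hfM z), pb_ord, aut_pow_root hτ,
        (hres _).ev_mul (Place.const_le _ _) h1.le, Place.ev_const, mul_zpow, zpow_mul,
        zpow_natCast]
    rw [Finset.prod_congr rfl h4, Finset.prod_mul_distrib, prod_zpow_sum hζ, prod_zpow_sum h2,
      ← hsumB, hsum, zpow_mul, zpow_natCast, h3]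
  have hR : evD z (dv k α) = evD g D := by
    rw [C.evD_eq z _ D.support fun y hy => by
      rw [dv_apply (hfM α), hoa] at hy
      exact Finsupp.mem_support_iff.2 hy, evD, Finsupp.prod]
    refine Finset.prod_congr rfl fun x hx => ?_
    have hxT : x ∉ T := fun h0 => by
      have h1 := x.ord_of_val_one (hTf x h0)
      rw [hf] at h1
      exact Finsupp.mem_support_iff.1 hx ((mul_eq_zero.1 h1).resolve_left hl')
    have h4 : ∀ i ∈ Finset.range l,
        (C.sec x).ev ((τ ^ i) z) ^ dv k α (pb (τ ^ i) (C.sec x)) =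
          (C.sec x).ev ((τ ^ i) z) ^ D x := fun i _ => by
      rw [dv_apply (hfM α), hoa, C.dn_pb]
    have h5 : ∀ i ∈ Finset.range l, (C.sec x).val ((τ ^ i) z) ≤ 1 := fun i _ =>
      (((C.sec x).val_one_iff ((C.sec x).val_ne (hτz i))).2 (hTn x hxT i)).le
    rw [Finset.prod_congr rfl h4, Finset.prod_zpow, ← (ev_prod' (hres _) _ _ h5).2, hz,
      over_ev (C.over_sec x)]
  rw [← hL, hW, hR]

end Pull

end Pool.Agent.MP_cce4c9_lc.H68
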