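import Pool.Agent.MP_cce4c9_lc.H68.MabA

/-! Kummer covers of prime degree: the Galois group, the places, and partial norms. -/

set_option autoImplicit false

open WithZero Finsupp Module

namespace Pool.Agent.MP_cce4c9_lc.H68

open Pool.Agent.MP_cce4c9_lc.H87 Pool.Agent.MP_cce4c9_lc.H7

theorem zeta_congr {k : Type} [Field k] {ζ : k} {l : ℕ} (h : ζ ^ l = 1) {a b : ℕ}
    (hab : (a : ZMod l) = b) : ζ ^ a = ζ ^ b := by
  rw [pow_eq_pow_mod a h, pow_eq_pow_mod b h, (ZMod.natCast_eq_natCast_iff' a b l).1 hab]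

section Norms

variable {K M : Type} [Field K] [Field M] [Algebra K M]

/-- Partial norms. -/
noncomputable def ZZ (τ : M ≃ₐ[K] M) (z : M) (m : ℕ) : M := ∏ i ∈ Finset.range m, (τ ^ i) z

/-- The twisted norm. -/
noncomputable def HH (τ : M ≃ₐ[K] M) (z : M) (l : ℕ) : M := ∏ i ∈ Finset.range l, (τ ^ i) z ^ i

variable {τ : M ≃ₐ[K] M} {z : M}

theorem ZZ_add (m n : ℕ) : ZZ τ z (m + n) = ZZ τ z m * (τ ^ m) (ZZ τ z n) := by
  rw [ZZ, Finset.prod_range_add, ZZ, ZZ, map_prod]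
  simp only [pow_add, AlgEquiv.mul_apply]

theorem ZZ_ne (hz : z ≠ 0) (m : ℕ) : ZZ τ z m ≠ 0 :=
  Finset.prod_ne_zero_iff.2 fun i _ => (map_ne_zero (τ ^ i)).2 hz

theorem HH_ne (hz : z ≠ 0) (m : ℕ) : HH τ z m ≠ 0 :=
  Finset.prod_ne_zero_iff.2 fun i _ => pow_ne_zero _ ((map_ne_zero (τ ^ i)).2 hz)

theorem HH_step {l : ℕ} {g : K} (hτ : τ ^ l = 1) (hz : ZZ τ z l = algebraMap K M g) :
    τ (HH τ z l) * algebraMap K M g = HH τ z l * z ^ l := by
  have h1 : τ (HH τ z l) * algebraMap K M g =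
      ∏ i ∈ Finset.range l, (τ ^ (i + 1)) z ^ (i + 1) := by
    rw [← τ.commutes g, ← hz, HH, ZZ, map_prod, map_prod, ← Finset.prod_mul_distrib]
    refine Finset.prod_congr rfl fun i _ => ?_
    rw [map_pow, pow_succ' τ, AlgEquiv.mul_apply, pow_succ]
  have h2 := Finset.prod_range_succ' (fun i => (τ ^ i) z ^ i) l
  have h3 := Finset.prod_range_succ (fun i => (τ ^ i) z ^ i) l
  rw [pow_zero ((τ ^ 0) z), mul_one] at h2
  rw [h1, ← h2, h3, hτ, HH]
  rfl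

theorem HH_pow {l : ℕ} {g : K} (hτ : τ ^ l = 1) (hz : ZZ τ z l = algebraMap K M g) (m : ℕ) :
    (τ ^ m) (HH τ z l) * algebraMap K M g ^ m = HH τ z l * ZZ τ z m ^ l := by
  induction m with
  | zero => simp [ZZ]
  | succ m ih =>
    have h1 := congrArg (τ ^ m) (HH_step hτ hz)
    rw [map_mul, map_mul, AlgEquiv.commutes, map_pow, ← AlgEquiv.mul_apply, ← pow_succ] at h1
    have h2 : ZZ τ z (m + 1) = ZZ τ z m * (τ ^ m) z := Finset.prod_range_succ _ _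
    rw [h2, mul_pow, ← mul_assoc, ← ih, pow_succ' (algebraMap K M g), ← mul_assoc, h1]
    ring

end Norms

section Kummer

variable {k K M : Type} [Field k] [Field K] [Algebra k K] [Field M] [Algebra k M] [Algebra K M]
  [IsScalarTower k K M] {l : ℕ} {ζ : k} {τ : M ≃ₐ[K] M} {α : M} {f : K}

omit [Algebra k K] [IsScalarTower k K M] in
theorem aut_ext (hgen : Algebra.adjoin K {α} = ⊤) {σ σ' : M ≃ₐ[K] M} (h : σ α = σ' α) :
    σ = σ' := by
  have := AlgHom.ext_of_adjoin_eq_top hgen (φ₁ := (σ : M →ₐ[K] M)) (φ₂ := (σ' : M →ₐ[K] M))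
    (by rintro _ rfl; exact h)
  exact AlgEquiv.ext fun x => DFunLike.congr_fun this x

theorem aut_all [NeZero l] (hζ : IsPrimitiveRoot ζ l) (hgen : Algebra.adjoin K {α} = ⊤)
    (h0 : α ≠ 0) (hα : α ^ l = algebraMap K M f) (hτ : τ α = algebraMap k M ζ * α)
    (σ : M ≃ₐ[K] M) : ∃ i < l, σ = τ ^ i := by
  have h1 : (σ α / α) ^ l = 1 := by
    rw [div_pow, ← map_pow, hα, σ.commutes, ← hα, div_self (pow_ne_zero _ h0)]
  obtain ⟨i, hi, e⟩ :=
    (hζ.map_of_injective (algebraMap k M).injective).eq_pow_of_pow_eq_one h1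
  refine ⟨i, hi, aut_ext hgen ?_⟩
  rw [aut_pow_root hτ, map_pow, e, div_mul_cancel₀ _ h0]

theorem aut_inj (hζ : IsPrimitiveRoot ζ l) (h0 : α ≠ 0) (hτ : τ α = algebraMap k M ζ * α)
    {i j : ℕ} (hi : i < l) (hj : j < l) (h : τ ^ i = τ ^ j) : i = j := by
  have h1 := aut_pow_root hτ i
  rw [h, aut_pow_root hτ] at h1
  exact (hζ.pow_inj hj hi ((algebraMap k M).injective (mul_right_cancel₀ h0 h1))).symm

theorem aut_order (hζ : IsPrimitiveRoot ζ l) (hgen : Algebra.adjoin K {α} = ⊤)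
    (hτ : τ α = algebraMap k M ζ * α) : τ ^ l = 1 :=
  aut_ext hgen (by rw [aut_pow_root hτ, hζ.pow_eq_one, map_one, one_mul]; rfl)

theorem norm_ZZ [NeZero l] [FiniteDimensional K M] [IsGalois K M] (hζ : IsPrimitiveRoot ζ l)
    (hgen : Algebra.adjoin K {α} = ⊤) (h0 : α ≠ 0) (hα : α ^ l = algebraMap K M f)
    (hτ : τ α = algebraMap k M ζ * α) (z : M) :
    ZZ τ z l = algebraMap K M (Algebra.norm K z) := by
  rw [Algebra.norm_eq_prod_automorphisms, ZZ]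
  refine Finset.prod_bij (fun i _ => τ ^ i) (fun _ _ => Finset.mem_univ _)
    (fun i hi j hj h => aut_inj hζ h0 hτ (Finset.mem_range.1 hi) (Finset.mem_range.1 hj) h)
    (fun σ _ => ?_) fun _ _ => rfl
  obtain ⟨i, hi, e⟩ := aut_all hζ hgen h0 hα hτ σ
  exact ⟨i, Finset.mem_range.2 hi, e.symm⟩

theorem exists_cyc [IsAlgClosed k] [FiniteDimensional K M] [IsGalois K M] [hp : Fact l.Prime]
    (hEXT : StmtEXT) (hGAL : StmtGAL) (hK : IsFF k K) (hζ : IsPrimitiveRoot ζ l)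
    (hgen : Algebra.adjoin K {α} = ⊤) (hf0 : f ≠ 0) (hα : α ^ l = algebraMap K M f)
    (hτ : τ α = algebraMap k M ζ * α) (hf : ∀ v : Place k K, (l : ℤ) ∣ v.ord f) :
    Nonempty (Cyc k l τ) := by
  have : NeZero l := ⟨hp.out.ne_zero⟩
  have h0 : α ≠ 0 := by
    rintro rfl
    rw [zero_pow hp.out.ne_zero] at hα
    exact hf0 ((map_eq_zero _).1 hα.symm)
  obtain ⟨dn, e, hov, hfib⟩ := hEXT k K M hK
  obtain ⟨h1, h2, h3⟩ := hGAL k K M hK
  have hfree := h3 l hp.out {α}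
    (IntermediateField.eq_adjoin_of_eq_algebra_adjoin _ _ _ hgen.symm).symm
    (by rintro _ rfl; exact ⟨f, hf0, hf, hα⟩)
  have he : ∀ y, Over y (dn y) 1 := fun y => by
    have := hov y
    rwa [h2 hfree y _ _ (hov y)] at this
  have hs : ∀ x, ∃ y, dn y = x := fun x => by
    obtain ⟨S, hS, hsum⟩ := hfib x
    rcases S.eq_empty_or_nonempty with rfl | ⟨y, hy⟩
    · exact absurd hsum.symm (by simpa using Module.finrank_pos.ne')
    · exact ⟨y, (hS y).1 hy⟩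
  choose sec hsec using hs
  refine ⟨⟨dn, sec, he, hsec, fun y => ?_, fun x i j hi hj h => ?_⟩⟩
  · obtain ⟨σ, hσ⟩ := h1 (sec (dn y)) y (dn y) 1 1 (by simpa only [hsec] using he (sec (dn y)))
      (he y)
    obtain ⟨i, hi, e⟩ := aut_all hζ hgen h0 hα hτ σ⁻¹
    exact ⟨i, hi, by rw [← e, ← smul_eq_pb, hσ]⟩
  · have h4 := congrArg (pb (τ ^ j)⁻¹) h
    rw [pb_pb, pb_pb, mul_inv_cancel, pb_one] at h4
    have h5 := hfree (τ ^ i * (τ ^ j)⁻¹)⁻¹ (sec x) (by rw [smul_eq_pb, inv_inv, h4])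
    rw [inv_eq_one, mul_inv_eq_one] at h5
    exact aut_inj hζ h0 hτ hi hj h5

end Kummer

end Pool.Agent.MP_cce4c9_lc.H68
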